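import Pool.Agent.Helper1.UQ.St1

/-!
# Project UQ, module PMO: monotonicity in the edge probabilities
-/

set_option autoImplicit false

open Finset

namespace Pool.Agent.Helper37.UQ

open Classical Pool.Agent.Helper30.RCU Pool.Agent.Helper1.UQ

/-- the likelihood ratio -/
noncomputable def RR {ι : Type*} (p p' : ι → ℝ) (E ω : Finset ι) : ℝ :=
  ∏ e ∈ E, (if e ∈ ω then p e / p' e else (1 - p e) / (1 - p' e))

lemma RR_nonneg {ι : Type*} {p p' : ι → ℝ} (h0 : ∀ e, 0 ≤ p' e) (h1 : ∀ e, p' e ≤ p e)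
    (h2 : ∀ e, p e ≤ 1) (E ω : Finset ι) : 0 ≤ RR p p' E ω := by
  unfold RR
  refine Finset.prod_nonneg fun e _ => ?_
  split_ifs
  · exact div_nonneg ((h0 e).trans (h1 e)) (h0 e)
  · exact div_nonneg (by linarith [h2 e]) (by linarith [h1 e, h2 e])

lemma RR_mono {ι : Type*} {p p' : ι → ℝ} (h0 : ∀ e, 0 ≤ p' e) (h1 : ∀ e, p' e ≤ p e)
    (h2 : ∀ e, p e ≤ 1) (E : Finset ι) (hE : ∀ e ∈ E, 0 < p' e ∧ p e < 1) :
    Monotone (RR p p' E) := by
  intro ω ω' h
  unfold RR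
  refine Finset.prod_le_prod (fun e _ => ?_) (fun e he => ?_)
  · split_ifs
    · exact div_nonneg ((h0 e).trans (h1 e)) (h0 e)
    · exact div_nonneg (by linarith [h2 e]) (by linarith [h1 e, h2 e])
  · obtain ⟨ha, hb⟩ := hE e he
    have hc := h1 e
    have hle : (1 - p e) / (1 - p' e) ≤ p e / p' e := by
      have e1 : (1 - p e) / (1 - p' e) ≤ 1 := by
        rw [div_le_one (by linarith)]; linarith
      have e2 : 1 ≤ p e / p' e := by
        rw [one_le_div ha]; exact hc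
      exact e1.trans e2
    by_cases hw : e ∈ ω
    · have hw' : e ∈ ω' := h hw
      rw [if_pos hw, if_pos hw']
    · by_cases hw' : e ∈ ω'
      · rw [if_neg hw, if_pos hw']; exact hle
      · rw [if_neg hw, if_neg hw']

lemma wt_RR {V ι : Type*} (φ : ι → Sym2 V) {p p' : ι → ℝ} (q : ℝ) (h1 : ∀ e, p' e ≤ p e)
    (E : Finset ι) (hE : ∀ e ∈ E, 0 < p' e ∧ p e < 1) {ω : Finset ι} (hω : ω ⊆ E) :
    wt φ p q E ω = RR p p' E ω * wt φ p' q E ω := by
  have hR : RR p p' E ω = (∏ e ∈ ω, p e / p' e) * ∏ e ∈ E \ ω, (1 - p e) / (1 - p' e) := by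
    unfold RR
    rw [← Finset.prod_sdiff hω, mul_comm]
    congr 1
    · exact Finset.prod_congr rfl fun e he => if_pos he
    · exact Finset.prod_congr rfl fun e he => if_neg (mem_sdiff.mp he).2
  have hA : (∏ e ∈ ω, p e / p' e) * (∏ e ∈ ω, p' e) = ∏ e ∈ ω, p e := by
    rw [← Finset.prod_mul_distrib]
    refine Finset.prod_congr rfl fun e he => ?_
    have := (hE e (hω he)).1
    field_simp
  have hB : (∏ e ∈ E \ ω, (1 - p e) / (1 - p' e)) * (∏ e ∈ E \ ω, (1 - p' e)) =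
      ∏ e ∈ E \ ω, (1 - p e) := by
    rw [← Finset.prod_mul_distrib]
    refine Finset.prod_congr rfl fun e he => ?_
    have h3 := (hE e (mem_sdiff.mp he).1).2
    have h4 := h1 e
    have h5 : (1 - p' e) ≠ 0 := by linarith
    field_simp
  unfold wt
  rw [hR, ← hA, ← hB]
  ring

/-- **PMO** -/
theorem hPMO : StPMO := by
  intro V ι φ p p' q h0 h1 h2 hq E hE f hf0 hf
  have hp'1 : ∀ e, p' e ≤ 1 := fun e => (h1 e).trans (h2 e)
  have hS : ∀ g : Finset ι → ℝ, S φ p q E g = S φ p' q E (fun ω => RR p p' E ω * g ω) := by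
    intro g
    unfold S
    refine Finset.sum_congr rfl fun ω hω => ?_
    rw [wt_RR φ q h1 E hE (mem_powerset.mp hω)]
    ring
  have hpos := S_one_pos (φ := φ) h0 hp'1 hq E
  have hp0 : ∀ e, 0 ≤ p e := fun e => (h0 e).trans (h1 e)
  have hpos2 := S_one_pos (φ := φ) hp0 h2 hq E
  have hfkg := S_fkg (φ := φ) h0 hp'1 hq E (fun ω => RR_nonneg h0 h1 h2 E ω) hf0
    (RR_mono h0 h1 h2 E hE) hf
  unfold ex
  rw [div_le_div_iff₀ hpos hpos2]
  rw [hS f, hS (fun _ => 1)]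
  have e1 : S φ p' q E (fun ω => RR p p' E ω * 1) = S φ p' q E (RR p p' E) := by
    congr 1
    funext ω
    ring
  rw [e1]
  calc S φ p' q E f * S φ p' q E (RR p p' E) = S φ p' q E (RR p p' E) * S φ p' q E f := mul_comm _ _
    _ ≤ S φ p' q E (fun _ => 1) * S φ p' q E (fun ω => RR p p' E ω * f ω) := hfkg
    _ = S φ p' q E (fun ω => RR p p' E ω * f ω) * S φ p' q E (fun _ => 1) := mul_comm _ _

end Pool.Agent.Helper37.UQ
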